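import Pool.Agent.Y227.SG.Pencil

/-!
# Classification: the coefficient ideal is radical if and only if `n ≤ 1` or `m ≤ 2`
-/

set_option autoImplicit false

namespace Pool.Agent.Y227.SG

open Matrix MvPolynomial

universe u

section

variable (K : Type u) [CommRing K] (n : ℕ)

theorem mk_eq_zero {m : ℕ} {x : CoordRing K n m} (hx : x ∈ coeffIdeal K n m) :
    Ideal.Quotient.mk (coeffIdeal K n m) x = 0 := Ideal.Quotient.eq_zero_iff_mem.2 hx

/-- the inclusion of the coordinate ring of `m`-tuples in the one of `m'`-tuples -/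
noncomputable def inc {m m' : ℕ} (h : m ≤ m') : CoordRing K n m →ₐ[K] CoordRing K n m' :=
  aeval fun v => X (Fin.castLE h v.1, v.2)

/-- the retraction -/
noncomputable def ret {m m' : ℕ} (_h : m ≤ m') : CoordRing K n m' →ₐ[K] CoordRing K n m :=
  aeval fun v => if hv : (v.1 : ℕ) < m then X (⟨v.1, hv⟩, v.2) else 0

theorem ret_inc {m m' : ℕ} (h : m ≤ m') (x : CoordRing K n m) : ret K n h (inc K n h x) = x := by
  have : (ret K n h).comp (inc K n h) = AlgHom.id K _ := by
    apply MvPolynomial.algHom_ext
    intro v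
    rw [AlgHom.comp_apply, inc, aeval_X, ret, aeval_X]
    exact dif_pos v.1.2
  exact congrArg (fun f => f x) this

/-- adding zeros to a sum -/
theorem sum_castLE {V : Type*} [AddCommMonoid V] {m m' : ℕ} (h : m ≤ m') (f : Fin m' → V)
    (hf : ∀ k : Fin m', m ≤ (k : ℕ) → f k = 0) : ∑ k, f k = ∑ k : Fin m, f (Fin.castLE h k) := by
  classical
  symm
  rw [← Finset.sum_image (f := f) (s := Finset.univ) (g := Fin.castLE h)
    (fun a _ b _ hab => Fin.castLE_injective h hab)]
  apply Finset.sum_subset (Finset.subset_univ _)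
  intro k _ hk
  apply hf
  by_contra hlt
  push Not at hlt
  exact hk (Finset.mem_image.2 ⟨⟨k, hlt⟩, Finset.mem_univ _, by ext; rfl⟩)

theorem inc_mem {m m' : ℕ} (h : m ≤ m') {x : CoordRing K n m} (hx : x ∈ coeffIdeal K n m) :
    inc K n h x ∈ coeffIdeal K n m' := by
  rw [← Ideal.Quotient.eq_zero_iff_mem]
  set Q := CoordRing K n m' ⧸ coeffIdeal K n m'
  refine kills (((Ideal.Quotient.mk (coeffIdeal K n m')) : CoordRing K n m' →+* Q).comp
    (inc K n h : CoordRing K n m →+* CoordRing K n m')) ?_ hx
  have h1 := det_eq_zero (K := K) (n := n) (m := m') (S := MvPolynomial (Fin m) Q)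
    ((C : Q →+* MvPolynomial (Fin m) Q).comp (Ideal.Quotient.mk (coeffIdeal K n m')))
    (fun x hx => by rw [RingHom.comp_apply, mk_eq_zero K n hx, map_zero])
    (fun k => if hk : (k : ℕ) < m then X ⟨k, hk⟩ else 0)
  rw [sum_castLE h] at h1
  · refine Eq.trans (congrArg Matrix.det (Finset.sum_congr rfl fun k _ => ?_)) h1
    have e : (if hk : ((Fin.castLE h k : Fin m') : ℕ) < m then
        (X ⟨(Fin.castLE h k : Fin m'), hk⟩ : MvPolynomial (Fin m) Q) else 0) = X k :=
      dif_pos k.2
    rw [e]
    refine congrArg (fun M : Matrix (Fin n) (Fin n) (MvPolynomial (Fin m) Q) => X k • M) ?_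
    ext1 i j
    simp only [Matrix.map_apply, genericMatrix, Matrix.of_apply, RingHom.comp_apply,
      AlgHom.coe_toRingHom, RingHom.coe_coe]
    rw [inc, aeval_X]
  · intro k hk
    rw [dif_neg (by omega), zero_smul]

theorem ret_mem {m m' : ℕ} (h : m ≤ m') {x : CoordRing K n m'} (hx : x ∈ coeffIdeal K n m') :
    ret K n h x ∈ coeffIdeal K n m := by
  rw [← Ideal.Quotient.eq_zero_iff_mem]
  set Q := CoordRing K n m ⧸ coeffIdeal K n m
  refine kills (((Ideal.Quotient.mk (coeffIdeal K n m)) : CoordRing K n m →+* Q).comp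
    (ret K n h : CoordRing K n m' →+* CoordRing K n m)) ?_ hx
  have h1 := det_eq_zero (K := K) (n := n) (m := m) (S := MvPolynomial (Fin m') Q)
    ((C : Q →+* MvPolynomial (Fin m') Q).comp (Ideal.Quotient.mk (coeffIdeal K n m)))
    (fun x hx => by rw [RingHom.comp_apply, mk_eq_zero K n hx, map_zero])
    (fun k => X (Fin.castLE h k))
  rw [sum_castLE h]
  · refine Eq.trans (congrArg Matrix.det (Finset.sum_congr rfl fun k _ => ?_)) h1
    refine congrArg (fun M : Matrix (Fin n) (Fin n) (MvPolynomial (Fin m') Q) =>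
      (X (Fin.castLE h k) : MvPolynomial (Fin m') Q) • M) ?_
    ext1 i j
    simp only [Matrix.map_apply, genericMatrix, Matrix.of_apply, RingHom.comp_apply,
      AlgHom.coe_toRingHom, RingHom.coe_coe]
    have e : ret K n h (X (Fin.castLE h k, i, j)) = X (k, i, j) := by
      rw [ret, aeval_X]
      exact dif_pos k.2
    rw [e]
  · intro k hk
    have : ((genericMatrix K n m' k).map
        (((Ideal.Quotient.mk (coeffIdeal K n m)) : CoordRing K n m →+* Q).comp
        (ret K n h : CoordRing K n m' →+* CoordRing K n m))) = 0 := by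
      ext1 i j
      simp only [Matrix.map_apply, genericMatrix, Matrix.of_apply, RingHom.comp_apply,
        AlgHom.coe_toRingHom, RingHom.coe_coe, Matrix.zero_apply]
      rw [ret, aeval_X, dif_neg (by simpa using hk), map_zero]
    rw [this]
    ext1 i j
    simp

theorem radical_mono {m m' : ℕ} (h : m ≤ m') (hrad : (coeffIdeal K n m').IsRadical) :
    (coeffIdeal K n m).IsRadical := by
  intro x hx
  obtain ⟨k, hk⟩ := hx
  have h1 := inc_mem K n h hk
  rw [map_pow] at h1
  have h2 := ret_mem K n h (hrad ⟨k, h1⟩)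
  rwa [ret_inc] at h2

theorem radical_zero (m : ℕ) : (coeffIdeal K 0 m).IsRadical := by
  have h1 := det_eq_zero (K := K) (n := 0) (m := m) (Ideal.Quotient.mk (coeffIdeal K 0 m))
    (fun x hx => mk_eq_zero K 0 hx) 0
  rw [Matrix.det_isEmpty] at h1
  intro x _
  rw [← Ideal.Quotient.eq_zero_iff_mem, ← mul_one (Ideal.Quotient.mk (coeffIdeal K 0 m) x), h1,
    mul_zero]

theorem radical_one [IsReduced K] (m : ℕ) : (coeffIdeal K 1 m).IsRadical := by
  classical
  have hX : ∀ v, (X v : CoordRing K 1 m) ∈ coeffIdeal K 1 m := by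
    rintro ⟨k, i, j⟩
    have h1 := det_eq_zero (K := K) (n := 1) (m := m) (Ideal.Quotient.mk (coeffIdeal K 1 m))
      (fun x hx => mk_eq_zero K 1 hx) (Pi.single k 1)
    rw [Finset.sum_eq_single k, Matrix.det_fin_one] at h1
    · rw [← Ideal.Quotient.eq_zero_iff_mem, ← h1, Subsingleton.elim i 0, Subsingleton.elim j 0]
      simp [genericMatrix]
    · intro l _ hl
      rw [Pi.single_eq_of_ne hl]
      ext1 a b
      simp
    · intro h
      exact absurd (Finset.mem_univ _) h
  have hmk : ∀ F : CoordRing K 1 m, Ideal.Quotient.mk (coeffIdeal K 1 m) F =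
      Ideal.Quotient.mk (coeffIdeal K 1 m) (C (constantCoeff F)) := by
    intro F
    have : (Ideal.Quotient.mk (coeffIdeal K 1 m)) =
        ((Ideal.Quotient.mk (coeffIdeal K 1 m)).comp C).comp
          (constantCoeff : CoordRing K 1 m →+* K) := by
      apply MvPolynomial.ringHom_ext
      · intro r
        simp
      · intro v
        rw [RingHom.comp_apply, constantCoeff_X, map_zero]
        exact mk_eq_zero K 1 (hX v)
    exact congrArg (fun f => f F) this
  have hzero : ∀ F ∈ coeffIdeal K 1 m, constantCoeff F = 0 := by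
    intro F hF
    refine kills (constantCoeff : CoordRing K 1 m →+* K) ?_ hF
    rw [Matrix.det_fin_one, Matrix.sum_apply]
    refine Finset.sum_eq_zero fun k _ => ?_
    simp [genericMatrix]
  intro x hx
  obtain ⟨k, hk⟩ := hx
  have h1 := hzero _ hk
  rw [map_pow] at h1
  have hnil : IsNilpotent (constantCoeff x) := ⟨k, h1⟩
  have h2 : constantCoeff x = 0 := hnil.eq_zero
  rw [← Ideal.Quotient.eq_zero_iff_mem, hmk, h2, map_zero, map_zero]

end

/-- **Classification of the reducedness**: over a nonzero reduced commutative ring the coefficient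
ideal is radical if and only if `n ≤ 1` or `m ≤ 2`. -/
theorem coeffIdeal_isRadical_iff (K : Type u) [CommRing K] [Nontrivial K] [IsReduced K]
    (n m : ℕ) : (coeffIdeal K n m).IsRadical ↔ n ≤ 1 ∨ m ≤ 2 := by
  constructor
  · intro h
    by_contra hcon
    push Not at hcon
    obtain ⟨F, hF, hF2⟩ := exists_sq K (n := n) (m := m) (by omega) (by omega)
    exact hF (h ⟨2, hF2⟩)
  · intro h
    rcases Nat.eq_zero_or_pos n with hn | hn
    · subst hn
      exact radical_zero K m
    · rcases h with h | h
      · have : n = 1 := by omega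
        subst this
        exact radical_one K m
      · exact radical_mono K n h (pencil_isRadical K hn)

/-- **Classification over algebraically closed fields**: the determinantal polynomials generate
the vanishing ideal if and only if `n ≤ 1` or `m ≤ 2`. -/
theorem J_eq_I_iff (K : Type u) [Field K] [IsAlgClosed K] (n m : ℕ) :
    J K n m = I K n m ↔ n ≤ 1 ∨ m ≤ 2 := by
  rw [← coeffIdeal_isRadical_iff K n m, J_eq_coeffIdeal K n m]
  constructor
  · intro h
    rw [h]
    exact I_isRadical K n m
  · intro h
    apply le_antisymm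
    · rw [← J_eq_coeffIdeal]
      exact J_le_I K n m
    · intro F hF
      apply h
      rw [← MvPolynomial.vanishingIdeal_zeroLocus_eq_radical (K := K)]
      rw [MvPolynomial.mem_vanishingIdeal_iff]
      intro x hx
      have hA : (fun k => Matrix.of fun i j => x (k, i, j)) ∈ SING K n m := by
        intro c
        have h1 := J_le_coeffIdeal K n m (Ideal.subset_span ⟨c, rfl⟩ : detPoly K n m c ∈ J K n m)
        rw [MvPolynomial.mem_zeroLocus_iff] at hx
        have h2 := hx _ h1
        have h3 := map_detPoly (aeval x : CoordRing K n m →ₐ[K] K).toRingHom c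
        have h4 : (aeval x : CoordRing K n m →ₐ[K] K).toRingHom (detPoly K n m c) = 0 := h2
        rw [h4] at h3
        rw [h3]
        congr 1
        refine Finset.sum_congr rfl fun k _ => ?_
        ext i j
        simp [genericMatrix]
      exact mem_I.1 hF _ hA

end Pool.Agent.Y227.SG
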