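import Pool.Agent.Y227.SG.Main

/-!
# The ideal generated by the determinantal polynomials and the coefficient ideal
-/

set_option autoImplicit false

namespace Pool.Agent.Y227.SG

open Matrix MvPolynomial

universe u

section

variable {K : Type u} [CommRing K] {n m : ℕ}

theorem map_detPoly {S : Type*} [CommRing S] (f : CoordRing K n m →+* S) (c : Fin m → K) :
    f (detPoly K n m c) =
      (∑ k, (f (C (c k)) : S) • (genericMatrix K n m k).map f).det := by
  unfold detPoly
  rw [RingHom.map_det, RingHom.mapMatrix_apply]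
  congr 1
  ext i j
  simp [Matrix.sum_apply, genericMatrix]

theorem J_le_coeffIdeal (K : Type u) [CommRing K] (n m : ℕ) : J K n m ≤ coeffIdeal K n m := by
  unfold J
  rw [Ideal.span_le]
  rintro _ ⟨c, rfl⟩
  rw [SetLike.mem_coe, ← Ideal.Quotient.eq_zero_iff_mem, map_detPoly]
  exact det_eq_zero (Ideal.Quotient.mk (coeffIdeal K n m))
    (fun x hx => Ideal.Quotient.eq_zero_iff_mem.2 hx) _

theorem detPoly_eq_sum (c : Fin m → K) : detPoly K n m c =
    ∑ d ∈ (bigDet K n m).support, C (∏ k, c k ^ d k) * coeff d (bigDet K n m) := by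
  have h := eval_bigDet (RingHom.id (CoordRing K n m)) (fun k => C (c k))
  have h2 : (∑ k, (C (c k) : CoordRing K n m) •
      (genericMatrix K n m k).map (RingHom.id (CoordRing K n m))) =
      ∑ k, (C (c k) : CoordRing K n m) • genericMatrix K n m k := by
    refine Finset.sum_congr rfl fun k _ => ?_
    ext i j
    simp
  rw [h2] at h
  unfold detPoly
  rw [← h, coe_eval₂Hom, eval₂_eq']
  refine Finset.sum_congr rfl fun d _ => ?_
  rw [RingHom.id_apply, mul_comm, map_prod]
  congr 1
  refine Finset.prod_congr rfl fun k _ => ?_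
  rw [map_pow]

end

/-- Over an infinite field the determinantal polynomials and the coefficients generate the same
ideal. -/
theorem J_eq_coeffIdeal (K : Type u) [Field K] [Infinite K] (n m : ℕ) :
    J K n m = coeffIdeal K n m := by
  refine le_antisymm (J_le_coeffIdeal K n m) ?_
  unfold coeffIdeal
  rw [Ideal.span_le]
  rintro _ ⟨d, rfl⟩
  rw [SetLike.mem_coe, ← Ideal.Quotient.eq_zero_iff_mem,
    ← Module.forall_dual_apply_eq_zero_iff K]
  intro lam
  set L : (CoordRing K n m) →ₗ[K] K :=
    lam ∘ₗ (Ideal.Quotient.mkₐ K (J K n m)).toLinearMap with hL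
  have hLJ : ∀ x ∈ J K n m, L x = 0 := by
    intro x hx
    have : (Ideal.Quotient.mkₐ K (J K n m)) x = 0 := Ideal.Quotient.eq_zero_iff_mem.2 hx
    rw [hL, LinearMap.comp_apply, AlgHom.toLinearMap_apply, this, map_zero]
  have hLd : ∀ e, lam (Ideal.Quotient.mk (J K n m) (coeff e (bigDet K n m))) =
      L (coeff e (bigDet K n m)) := fun e => rfl
  show lam (Ideal.Quotient.mk (J K n m) (coeff d (bigDet K n m))) = 0
  rw [hLd]
  set p : MvPolynomial (Fin m) K :=
    ∑ e ∈ (bigDet K n m).support, monomial e (L (coeff e (bigDet K n m))) with hp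
  have hp0 : p = 0 := by
    apply MvPolynomial.funext
    intro c
    rw [map_zero, hp, map_sum]
    have h1 := hLJ _ (Ideal.subset_span ⟨c, rfl⟩ : detPoly K n m c ∈ J K n m)
    rw [detPoly_eq_sum, map_sum] at h1
    rw [← h1]
    refine Finset.sum_congr rfl fun e _ => ?_
    rw [eval_monomial, ← smul_eq_C_mul, map_smul, smul_eq_mul, mul_comm]
    congr 1
    rw [Finsupp.prod_fintype _ _ (fun k => pow_zero _)]
  have h2 := congrArg (coeff d) hp0
  rw [coeff_zero, hp, coeff_sum] at h2
  simp only [coeff_monomial] at h2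
  rw [Finset.sum_ite_eq'] at h2
  by_cases hd : d ∈ (bigDet K n m).support
  · rwa [if_pos hd] at h2
  · rw [MvPolynomial.mem_support_iff, not_not] at hd
    rw [hd, map_zero]

theorem J_le_I (K : Type u) [CommRing K] (n m : ℕ) : J K n m ≤ I K n m := by
  unfold J
  rw [Ideal.span_le]
  rintro _ ⟨c, rfl⟩
  rw [SetLike.mem_coe, mem_I]
  intro A hA
  have h := map_detPoly (eval (fun v => A v.1 v.2.1 v.2.2)) c
  rw [h]
  have h2 := hA c
  have h3 : (∑ k, (eval (fun v : Fin m × Fin n × Fin n => A v.1 v.2.1 v.2.2)) (C (c k)) •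
      (genericMatrix K n m k).map (eval (fun v => A v.1 v.2.1 v.2.2))) = ∑ k, c k • A k := by
    apply Finset.sum_congr rfl
    intro k _
    ext i j
    simp [genericMatrix]
  rw [h3, h2]

theorem I_isRadical (K : Type u) [CommRing K] [IsReduced K] (n m : ℕ) : (I K n m).IsRadical := by
  intro x hx
  obtain ⟨k, hk⟩ := hx
  rw [mem_I] at hk ⊢
  intro A hA
  have := hk A hA
  rw [map_pow] at this
  have hnil : IsNilpotent ((eval (fun v : Fin m × Fin n × Fin n => A v.1 v.2.1 v.2.2)) x) :=
    ⟨k, this⟩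
  exact hnil.eq_zero

/-- for `n ≥ 2` and `m ≥ 3` some polynomial outside the coefficient ideal has its square in it -/
theorem exists_sq (K : Type u) [CommRing K] [Nontrivial K] {n m : ℕ} (hn : 2 ≤ n) (hm : 3 ≤ m) :
    ∃ F : CoordRing K n m, F ∉ coeffIdeal K n m ∧ F ^ 2 ∈ coeffIdeal K n m := by
  obtain ⟨N, rfl⟩ : ∃ N, n = N + 1 := ⟨n - 1, by omega⟩
  have h := not_isReduced K (N := N) (m := m) (by omega) hm
  rw [isReduced_iff_pow_one_lt 2 (by norm_num)] at h
  push Not at h
  obtain ⟨x, hx, hx0⟩ := h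
  obtain ⟨F, rfl⟩ := Ideal.Quotient.mk_surjective x
  refine ⟨F, fun hF => hx0 (Ideal.Quotient.eq_zero_iff_mem.2 hF), ?_⟩
  rw [← Ideal.Quotient.eq_zero_iff_mem, map_pow]
  exact hx

end Pool.Agent.Y227.SG
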