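import Mathlib

/-!
# Polynomials with pairwise coprime squarefree leading monomials generate a radical ideal
-/

set_option autoImplicit false

namespace Pool.Agent.Y227.SG

universe u

open MvPolynomial
open scoped MonomialOrder

section

variable {σ R ι : Type*} [CommRing R] (mo : MonomialOrder σ)

theorem coprime_criterion (b : ι → MvPolynomial σ R)
    (hb : ∀ i, IsUnit (mo.leadingCoeff (b i)))
    (hcop : ∀ i j, i ≠ j → ∀ v, mo.degree (b i) v = 0 ∨ mo.degree (b j) v = 0)
    (s : Finset ι) : ∀ F ∈ Ideal.span (b '' (s : Set ι)), F ≠ 0 →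
      ∃ i ∈ s, mo.degree (b i) ≤ mo.degree F := by
  classical
  induction s using Finset.induction_on with
  | empty =>
    intro F hF h0
    simp only [Finset.coe_empty, Set.image_empty, Ideal.span_empty, Ideal.mem_bot] at hF
    exact absurd hF h0
  | insert j s hj ih =>
    intro F hF h0
    rw [Finset.coe_insert, Set.image_insert_eq, Ideal.mem_span_insert] at hF
    obtain ⟨h, G, hG, rfl⟩ := hF
    obtain ⟨g, r, hgr, -, hr⟩ := mo.div (b := fun i : s => b i) (fun i => hb i) h
    set L := Finsupp.linearCombination (MvPolynomial σ R) (fun i : s => b i) g with hL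
    have hLmem : L ∈ Ideal.span (b '' (s : Set ι)) := by
      rw [hL, Finsupp.linearCombination_apply]
      refine Ideal.sum_mem _ fun i _ => ?_
      change _ * _ ∈ _
      exact Ideal.mul_mem_left _ _ (Ideal.subset_span ⟨i, i.2, rfl⟩)
    have hG' : G + L * b j ∈ Ideal.span (b '' (s : Set ι)) :=
      Ideal.add_mem _ hG (Ideal.mul_mem_right _ _ hLmem)
    have hF' : h * b j + G = r * b j + (G + L * b j) := by
      rw [hgr]
      ring
    rw [hF'] at h0 ⊢
    set G' := G + L * b j with hG'def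
    by_cases hr0 : r = 0
    · subst hr0
      rw [zero_mul, zero_add] at h0 ⊢
      obtain ⟨i, hi, hle⟩ := ih G' hG' h0
      exact ⟨i, Finset.mem_insert_of_mem hi, hle⟩
    have hdeg : mo.degree (r * b j) = mo.degree r + mo.degree (b j) :=
      MonomialOrder.degree_mul_of_isRegular_right hr0 (hb j).isRegular
    by_cases hG0 : G' = 0
    · rw [hG0, add_zero, hdeg]
      exact ⟨j, Finset.mem_insert_self _ _, le_add_self⟩
    obtain ⟨i, hi, hle⟩ := ih G' hG' hG0
    have hne : mo.degree (r * b j) ≠ mo.degree G' := by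
      intro heq
      rw [← heq, hdeg] at hle
      have hle2 : mo.degree (b i) ≤ mo.degree r := by
        intro v
        rcases hcop i j (fun h => hj (h ▸ hi)) v with h | h
        · rw [h]
          exact Nat.zero_le _
        · have h2 := hle v
          rw [Finsupp.add_apply, h, add_zero] at h2
          exact h2
      exact hr _ (MonomialOrder.degree_mem_support hr0) ⟨i, hi⟩ hle2
    have hmax := MonomialOrder.degree_add_of_ne hne
    rcases le_total (mo.toSyn (mo.degree (r * b j))) (mo.toSyn (mo.degree G')) with hc | hc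
    · rw [sup_eq_right.2 hc] at hmax
      rw [mo.toSyn.injective hmax]
      exact ⟨i, Finset.mem_insert_of_mem hi, hle⟩
    · rw [sup_eq_left.2 hc] at hmax
      rw [mo.toSyn.injective hmax, hdeg]
      exact ⟨j, Finset.mem_insert_self _ _, le_add_self⟩

theorem span_isRadical [IsReduced R] [Fintype ι] (b : ι → MvPolynomial σ R)
    (hb : ∀ i, IsUnit (mo.leadingCoeff (b i)))
    (hcop : ∀ i j, i ≠ j → ∀ v, mo.degree (b i) v = 0 ∨ mo.degree (b j) v = 0)
    (hsq : ∀ i v, mo.degree (b i) v ≤ 1) : (Ideal.span (Set.range b)).IsRadical := by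
  rw [Ideal.isRadical_iff_pow_one_lt 2 (by norm_num)]
  intro x hx
  obtain ⟨g, r, hgr, -, hr⟩ := mo.div (b := b) hb x
  set L := Finsupp.linearCombination (MvPolynomial σ R) b g with hL
  have hLmem : L ∈ Ideal.span (Set.range b) := by
    rw [hL, Finsupp.linearCombination_apply]
    refine Ideal.sum_mem _ fun i _ => ?_
    change _ * _ ∈ _
    exact Ideal.mul_mem_left _ _ (Ideal.subset_span ⟨i, rfl⟩)
  have hr2 : r ^ 2 ∈ Ideal.span (Set.range b) := by
    have : r ^ 2 = x ^ 2 + L * (L - 2 * x) := by rw [hgr]; ring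
    rw [this]
    exact Ideal.add_mem _ hx (Ideal.mul_mem_right _ _ hLmem)
  by_cases hr0 : r = 0
  · rw [hgr, hr0, add_zero]
    exact hLmem
  exfalso
  have hr20 : r ^ 2 ≠ 0 := fun h => hr0 ((pow_eq_zero_iff (two_ne_zero)).1 h)
  have hr2' : r ^ 2 ∈ Ideal.span (b '' ((Finset.univ : Finset ι) : Set ι)) := by
    rwa [Finset.coe_univ, Set.image_univ]
  obtain ⟨i, -, hi⟩ := coprime_criterion mo b hb hcop Finset.univ _ hr2' hr20
  rw [MonomialOrder.degree_pow] at hi
  refine hr (mo.degree r) (MonomialOrder.degree_mem_support hr0) i ?_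
  intro v
  have h1 := hi v
  have h2 := hsq i v
  rw [Finsupp.smul_apply, smul_eq_mul] at h1
  omega

end

section Weight

variable {σ : Type*}

/-- exponents, to be ordered by weight first -/
def WSyn (_φ : (σ →₀ ℕ) →+ ℕ) : Type _ := σ →₀ ℕ

noncomputable instance (φ : (σ →₀ ℕ) →+ ℕ) : AddCommMonoid (WSyn φ) :=
  inferInstanceAs (AddCommMonoid (σ →₀ ℕ))

/-- the underlying exponent -/
def ofW {φ : (σ →₀ ℕ) →+ ℕ} (f : WSyn φ) : σ →₀ ℕ := f

/-- the additive equivalence -/
noncomputable def toW (φ : (σ →₀ ℕ) →+ ℕ) : (σ →₀ ℕ) ≃+ WSyn φ := AddEquiv.refl (σ →₀ ℕ)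

theorem ofW_toW {φ : (σ →₀ ℕ) →+ ℕ} (f : σ →₀ ℕ) : ofW (toW φ f) = f := rfl

theorem ofW_add {φ : (σ →₀ ℕ) →+ ℕ} (f g : WSyn φ) : ofW (f + g) = ofW f + ofW g := rfl

variable [LinearOrder σ]

/-- the key by which exponents are compared -/
noncomputable def wKey (φ : (σ →₀ ℕ) →+ ℕ) (f : WSyn φ) : ℕ ×ₗ Lex (σ →₀ ℕ) :=
  toLex (φ (ofW f), toLex (ofW f))

theorem wKey_injective (φ : (σ →₀ ℕ) →+ ℕ) : Function.Injective (wKey φ) := by
  intro f g h
  have h1 : toLex (ofW f) = toLex (ofW g) := congrArg (fun x => (ofLex x).2) h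
  exact toLex.injective h1

noncomputable instance (φ : (σ →₀ ℕ) →+ ℕ) : LinearOrder (WSyn φ) :=
  LinearOrder.lift' (wKey φ) (wKey_injective φ)

theorem wle_iff {φ : (σ →₀ ℕ) →+ ℕ} {f g : WSyn φ} : f ≤ g ↔
    φ (ofW f) < φ (ofW g) ∨ (φ (ofW f) = φ (ofW g) ∧ toLex (ofW f) ≤ toLex (ofW g)) := by
  change wKey φ f ≤ wKey φ g ↔ _
  unfold wKey
  rw [Prod.Lex.toLex_le_toLex]

instance (φ : (σ →₀ ℕ) →+ ℕ) : IsOrderedAddMonoid (WSyn φ) where
  add_le_add_left a b h c := by
    rw [wle_iff] at h ⊢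
    rw [ofW_add, ofW_add, map_add, map_add]
    rcases h with h | ⟨h, h'⟩
    · left; omega
    · right
      refine ⟨by omega, ?_⟩
      rw [toLex_add, toLex_add]
      exact add_le_add_left h' _

/-- the weighted order -/
noncomputable def wOrder [WellFoundedGT σ] (φ : (σ →₀ ℕ) →+ ℕ) : MonomialOrder σ where
  syn := WSyn φ
  toSyn := toW φ
  toSyn_monotone a b h := by
    rw [wle_iff, ofW_toW, ofW_toW]
    obtain ⟨c, rfl⟩ := exists_add_of_le h
    rw [map_add]
    rcases Nat.eq_zero_or_pos (φ c) with h0 | h0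
    · right
      exact ⟨by omega, Finsupp.toLex_monotone h⟩
    · left
      omega
  wellFoundedLT_syn := by
    constructor
    have h : WellFounded (fun x y : ℕ ×ₗ Lex (σ →₀ ℕ) => x < y) := wellFounded_lt
    exact InvImage.wf (wKey φ) h

theorem exists_order {τ : Type u} [Finite τ] (φ : (τ →₀ ℕ) →+ ℕ) :
    ∃ mo : MonomialOrder.{u, u} τ, ∀ a b, φ a < φ b → mo.toSyn a < mo.toSyn b := by
  letI : LinearOrder τ := LinearOrder.lift' (Finite.equivFin τ) (Finite.equivFin τ).injective
  refine ⟨wOrder φ, fun a b h => ?_⟩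
  rw [← not_le]
  intro h2
  have h3 : toW φ b ≤ toW φ a := h2
  rw [wle_iff, ofW_toW, ofW_toW] at h3
  omega

end Weight

end Pool.Agent.Y227.SG
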