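import Pool.Agent.Y227.SG.Point

/-!
# The scheme of singular tuples of matrices is not reduced, over any commutative ring
-/

set_option autoImplicit false

namespace Pool.Agent.Y227.SG

open Matrix MvPolynomial

universe u

section

variable (K : Type u) [CommRing K] (n m : ℕ)

/-- The coordinate ring of the space of `m`-tuples of `n × n` matrices over `K`. -/
abbrev CoordRing : Type u := MvPolynomial (Fin m × Fin n × Fin n) K

/-- The `k`-th generic matrix. -/
noncomputable def genericMatrix (k : Fin m) : Matrix (Fin n) (Fin n) (CoordRing K n m) :=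
  Matrix.of fun i j => X (k, i, j)

/-- `det (t_1 X_1 + ... + t_m X_m)` as a polynomial in `t_1, ..., t_m`. -/
noncomputable def bigDet : MvPolynomial (Fin m) (CoordRing K n m) :=
  (∑ k, (X k : MvPolynomial (Fin m) (CoordRing K n m)) • (genericMatrix K n m k).map C).det

/-- The ideal generated by the coefficients of `det (t_1 X_1 + ... + t_m X_m)`. -/
noncomputable def coeffIdeal : Ideal (CoordRing K n m) :=
  Ideal.span (Set.range fun d => coeff d (bigDet K n m))

/-- The determinantal polynomial `f_c`. -/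
noncomputable def detPoly (c : Fin m → K) : CoordRing K n m :=
  (∑ k, (C (c k) : CoordRing K n m) • genericMatrix K n m k).det

/-- The ideal generated by the determinantal polynomials. -/
noncomputable def J : Ideal (CoordRing K n m) := Ideal.span (Set.range (detPoly K n m))

/-- The tuples all of whose linear combinations are singular. -/
def SING : Set (Fin m → Matrix (Fin n) (Fin n) K) :=
  {A | ∀ c : Fin m → K, (∑ k, c k • A k).det = 0}

/-- The ideal of all polynomials vanishing on `SING n m`. -/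
noncomputable def I : Ideal (CoordRing K n m) where
  carrier := {F | ∀ A ∈ SING K n m, eval (fun v => A v.1 v.2.1 v.2.2) F = 0}
  add_mem' := by
    intro a b ha hb A hA
    rw [map_add, ha A hA, hb A hA, add_zero]
  zero_mem' := by
    intro A _
    rw [map_zero]
  smul_mem' := by
    intro c a ha A hA
    rw [smul_eq_mul, map_mul, ha A hA, mul_zero]

variable {K n m}

theorem mem_I {F : CoordRing K n m} :
    F ∈ I K n m ↔ ∀ A ∈ SING K n m, eval (fun v => A v.1 v.2.1 v.2.2) F = 0 := Iff.rfl

theorem eval_bigDet {S : Type*} [CommRing S] (φ : CoordRing K n m →+* S) (c : Fin m → S) :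
    eval₂Hom φ c (bigDet K n m) = (∑ k, c k • (genericMatrix K n m k).map φ).det := by
  unfold bigDet
  rw [RingHom.map_det, RingHom.mapMatrix_apply]
  congr 1
  ext i j
  simp [Matrix.sum_apply, genericMatrix]

theorem det_eq_zero {S : Type*} [CommRing S] (φ : CoordRing K n m →+* S)
    (hφ : ∀ x ∈ coeffIdeal K n m, φ x = 0) (c : Fin m → S) :
    (∑ k, c k • (genericMatrix K n m k).map φ).det = 0 := by
  rw [← eval_bigDet, coe_eval₂Hom, eval₂_eq']
  refine Finset.sum_eq_zero fun d _ => ?_
  rw [hφ _ (Ideal.subset_span ⟨d, rfl⟩), zero_mul]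

theorem kills {S : Type*} [CommRing S] (φ : CoordRing K n m →+* S)
    (h : (∑ k, (X k : MvPolynomial (Fin m) S) •
      ((genericMatrix K n m k).map φ).map (C : S →+* MvPolynomial (Fin m) S)).det = 0)
    {x : CoordRing K n m} (hx : x ∈ coeffIdeal K n m) : φ x = 0 := by
  have h1 : MvPolynomial.map φ (bigDet K n m) = 0 := by
    rw [← h, bigDet, RingHom.map_det, RingHom.mapMatrix_apply]
    congr 1
    ext i j
    simp [Matrix.sum_apply, genericMatrix]
  have h2 : coeffIdeal K n m ≤ RingHom.ker φ := by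
    unfold coeffIdeal
    rw [Ideal.span_le]
    rintro _ ⟨d, rfl⟩
    rw [SetLike.mem_coe, RingHom.mem_ker]
    have := congrArg (coeff d) h1
    rwa [coeff_map, coeff_zero] at this
  exact h2 hx

/-- sums over the first three indices -/
theorem sum_three {V : Type*} [AddCommMonoid V] (hm : 3 ≤ m) (f : Fin m → V)
    (hf : ∀ k, k ≠ ⟨0, by omega⟩ → k ≠ ⟨1, by omega⟩ → k ≠ ⟨2, by omega⟩ → f k = 0) :
    ∑ k, f k = f ⟨0, by omega⟩ + f ⟨1, by omega⟩ + f ⟨2, by omega⟩ := by
  rw [← Finset.sum_subset (Finset.subset_univ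
    ({⟨0, by omega⟩, ⟨1, by omega⟩, ⟨2, by omega⟩} : Finset (Fin m)))]
  · rw [Finset.sum_insert, Finset.sum_insert, Finset.sum_singleton, add_assoc]
    · simp [Fin.ext_iff]
    · simp [Fin.ext_iff]
  · intro x _ hx
    simp only [Finset.mem_insert, Finset.mem_singleton, not_or] at hx
    exact hf x hx.1 hx.2.1 hx.2.2

end

section Value

variable {K' : Type*} [CommRing K'] {S : Type*} [CommRing S] [Algebra K' S]

theorem det_colMat_eq {N : ℕ} (hN : 1 ≤ N) (α : Fin (N + 1) → K')
    (hα : ∀ i j, i ≠ j → (-α i + α j) ∈ nonZeroDivisors K') (e2 : S) :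
    ∃ c : K', c ∈ nonZeroDivisors K' ∧
      (colMat (fun j => algebraMap K' S (α j)) (D0 S N)
        (D2 N (fun j => algebraMap K' S (α j)) e2)).det = algebraMap K' S c * e2 := by
  rw [det_colMat]
  set q : Fin (N + 1) → K' := fun j => if j = Fin.last N then
      ∏ l : Fin (N + 1), (if l = Fin.last N then (1 : K') else (-α (Fin.last N) + α l))
    else (-∏ l : Fin (N + 1), (if l = j ∨ l = Fin.last N then (1 : K') else
        (-α j + α l))) with hq
  set t : Fin (N + 1) → S := fun j => if j = 0 then -e2 else 1 with ht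
  have hlast : (0 : Fin (N + 1)) ≠ Fin.last N := by
    intro h
    have := congrArg Fin.val h
    simp at this
    omega
  have h1 : ∀ j, colMat (fun j => algebraMap K' S (α j)) (D0 S N)
      (D2 N (fun j => algebraMap K' S (α j)) e2) j j = algebraMap K' S (q j) * t j := by
    intro j
    by_cases hj : j = Fin.last N
    · subst hj
      rw [colMat_last]
      simp only [hq, ht, if_true, hlast.symm, if_false, mul_one]
      rw [map_prod]
      apply Finset.prod_congr rfl
      intro l _
      split_ifs <;> simp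
    · rw [colMat_apply_self _ _ hj]
      simp only [hq, ht, hj, if_false, or_false]
      rw [map_neg, map_prod, mul_comm]
      have h2 : bval e2 j = (if j = 0 then -e2 else 1 : S) := rfl
      rw [h2]
      congr 2
      apply Finset.prod_congr rfl
      intro l _
      split_ifs <;> simp
  have hneg : ∀ x : K', x ∈ nonZeroDivisors K' → -x ∈ nonZeroDivisors K' := by
    intro x hx
    rw [mem_nonZeroDivisors_iff_right] at hx ⊢
    intro y hy
    apply hx
    have : y * x = - (y * -x) := by ring
    rw [this, hy, neg_zero]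
  refine ⟨-∏ j, q j, ?_, ?_⟩
  · refine hneg _ (Submonoid.prod_mem _ fun j _ => ?_)
    simp only [hq]
    split_ifs with hj
    · refine Submonoid.prod_mem _ fun l _ => ?_
      split_ifs with hl
      · exact Submonoid.one_mem _
      · exact hα _ _ (fun h => hl h.symm)
    · refine hneg _ (Submonoid.prod_mem _ fun l _ => ?_)
      split_ifs with hl
      · exact Submonoid.one_mem _
      · push Not at hl
        exact hα _ _ (fun h => hl.1 h.symm)
  · rw [Finset.prod_congr rfl (fun j _ => h1 j), Finset.prod_mul_distrib, ← map_prod]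
    have h2 : ∏ j, t j = -e2 := by
      rw [Finset.prod_eq_single 0]
      · simp [ht]
      · intro b _ hb
        simp [ht, hb]
      · intro h
        exact absurd (Finset.mem_univ _) h
    rw [h2, map_neg]
    ring

/-- The double dual numbers. -/
abbrev BB (K' : Type*) [CommRing K'] : Type _ := DualNumber (DualNumber K')

/-- first infinitesimal -/
noncomputable def e1 (K' : Type*) [CommRing K'] : BB K' := TrivSqZeroExt.inl DualNumber.eps

/-- second infinitesimal -/
noncomputable def e2 (K' : Type*) [CommRing K'] : BB K' := DualNumber.eps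

theorem e1_sq : e1 K' * e1 K' = 0 := by
  unfold e1
  rw [← TrivSqZeroExt.inl_mul, DualNumber.eps_mul_eps, TrivSqZeroExt.inl_zero]

theorem e2_sq : e2 K' * e2 K' = 0 := DualNumber.eps_mul_eps

theorem smul_ne {c : K'} (hc : c ≠ 0) : e1 K' * (algebraMap K' (BB K') c * e2 K') ≠ 0 := by
  intro h
  have h1 : e1 K' * (algebraMap K' (BB K') c * e2 K') = c • (e1 K' * e2 K') := by
    rw [← Algebra.smul_def, mul_smul_comm]
  rw [h1] at h
  have h4 : TrivSqZeroExt.snd (e1 K' * e2 K') = (DualNumber.eps : DualNumber K') := by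
    unfold e1 e2
    rw [TrivSqZeroExt.snd_mul, DualNumber.snd_eps, DualNumber.fst_eps, TrivSqZeroExt.fst_inl,
      smul_eq_mul, mul_one, MulOpposite.op_zero, zero_smul, add_zero]
  have h3 := congrArg TrivSqZeroExt.snd h
  rw [TrivSqZeroExt.snd_smul, h4, TrivSqZeroExt.snd_zero] at h3
  have h5 := congrArg TrivSqZeroExt.snd h3
  rw [TrivSqZeroExt.snd_smul, DualNumber.snd_eps, TrivSqZeroExt.snd_zero, smul_eq_mul,
    mul_one] at h5
  exact hc h5

end Value

/-- The infinitesimal point: if the coefficient scheme is reduced, then some non zero divisor of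
`K[X]` times `ε₁ ε₂` vanishes, in every `K[X]`-algebra with two square zero elements. -/
theorem infinitesimal (K : Type u) [CommRing K] {N m : ℕ} (hN : 1 ≤ N) (hm : 3 ≤ m)
    (hred : IsReduced (CoordRing K (N + 1) m ⧸ coeffIdeal K (N + 1) m))
    {S : Type*} [CommRing S] [Algebra (Polynomial K) S] (ε1 ε2 : S) (hε1 : ε1 * ε1 = 0)
    (hε2 : ε2 * ε2 = 0) :
    ∃ c ∈ nonZeroDivisors (Polynomial K), ε1 * (algebraMap (Polynomial K) S c * ε2) = 0 := by
  set Q := CoordRing K (N + 1) m ⧸ coeffIdeal K (N + 1) m with hQ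
  set φ0 : CoordRing K (N + 1) m →+* Q := Ideal.Quotient.mk _ with hφ0
  set φ : CoordRing K (N + 1) m →+* Polynomial Q := Polynomial.C.comp φ0 with hφ
  set z : Fin (N + 1) → Polynomial Q := fun j => Polynomial.X ^ (j : ℕ) with hz
  set G : Fin m → Matrix (Fin (N + 1)) (Fin (N + 1)) (Polynomial Q) :=
    fun k => (genericMatrix K (N + 1) m k).map φ with hG
  have hsq : Fval z (G ⟨0, by omega⟩) (G ⟨1, by omega⟩) (G ⟨2, by omega⟩) ^ 2 = 0 := by
    refine Fval_sq_eq_zero z _ _ _ fun a b c => ?_
    have h1 := det_eq_zero (K := K) (n := N + 1) (m := m)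
      ((Polynomial.C : Polynomial Q →+* Polynomial (Polynomial Q)).comp φ)
      (fun x hx => by
        simp only [hφ, RingHom.comp_apply, hφ0]
        rw [Ideal.Quotient.eq_zero_iff_mem.2 hx, map_zero, map_zero])
      (fun k => if k = ⟨0, by omega⟩ then a else if k = ⟨1, by omega⟩ then b else
        if k = ⟨2, by omega⟩ then c else 0)
    rw [sum_three hm _ (fun k h0 h1 h2 => by simp [h0, h1, h2])] at h1
    have e0 : (⟨1, by omega⟩ : Fin m) ≠ ⟨0, by omega⟩ := by simp [Fin.ext_iff]
    have e1 : (⟨2, by omega⟩ : Fin m) ≠ ⟨0, by omega⟩ := by simp [Fin.ext_iff]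
    have e2 : (⟨2, by omega⟩ : Fin m) ≠ ⟨1, by omega⟩ := by simp [Fin.ext_iff]
    simp only [if_true, e0, e1, e2, if_false] at h1
    rw [← h1]
    rfl
  have hzero : Fval z (G ⟨0, by omega⟩) (G ⟨1, by omega⟩) (G ⟨2, by omega⟩) = 0 := by
    have hnil : IsNilpotent (Fval z (G ⟨0, by omega⟩) (G ⟨1, by omega⟩) (G ⟨2, by omega⟩)) :=
      ⟨2, hsq⟩
    rw [Polynomial.isNilpotent_iff] at hnil
    ext i
    rw [Polynomial.coeff_zero]
    exact (hnil i).eq_zero
  -- the infinitesimal point
  set z' : Fin (N + 1) → S :=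
    fun j => algebraMap (Polynomial K) S (Polynomial.X ^ (j : ℕ)) with hz'
  set pt : Fin m × Fin (N + 1) × Fin (N + 1) → S := fun v =>
    if v.1 = ⟨0, by omega⟩ then D0 S N v.2.1 v.2.2 else
    if v.1 = ⟨1, by omega⟩ then D1 N ε1 v.2.1 v.2.2 else
    if v.1 = ⟨2, by omega⟩ then D2 N z' ε2 v.2.1 v.2.2 else 0 with hpt
  set ψ : CoordRing K (N + 1) m →+* S :=
    eval₂Hom ((algebraMap (Polynomial K) S).comp (Polynomial.C : K →+* Polynomial K)) pt with hψ
  have hX : ∀ k i j, ψ (X (k, i, j)) = pt (k, i, j) := by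
    intro k i j
    rw [hψ, coe_eval₂Hom, eval₂_X]
  have n10 : (⟨1, by omega⟩ : Fin m) ≠ ⟨0, by omega⟩ := by simp [Fin.ext_iff]
  have n20 : (⟨2, by omega⟩ : Fin m) ≠ ⟨0, by omega⟩ := by simp [Fin.ext_iff]
  have n21 : (⟨2, by omega⟩ : Fin m) ≠ ⟨1, by omega⟩ := by simp [Fin.ext_iff]
  have m0 : (genericMatrix K (N + 1) m ⟨0, by omega⟩).map ψ = D0 S N := by
    ext1 i j
    simp [genericMatrix, hX, hpt]
  have m1 : (genericMatrix K (N + 1) m ⟨1, by omega⟩).map ψ = D1 N ε1 := by
    ext1 i j
    simp [genericMatrix, hX, hpt]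
  have m2 : (genericMatrix K (N + 1) m ⟨2, by omega⟩).map ψ = D2 N z' ε2 := by
    ext1 i j
    simp [genericMatrix, hX, hpt]
  have hkill : ∀ x ∈ coeffIdeal K (N + 1) m, ψ x = 0 := by
    intro x hx
    refine kills ψ ?_ hx
    rw [sum_three hm]
    · rw [m0, m1, m2]
      have c0 : (D0 S N).map (C : S →+* MvPolynomial (Fin m) S) =
          D0 (MvPolynomial (Fin m) S) N := by
        ext1 i j
        simp only [D0, Matrix.map_apply, Matrix.of_apply]
        split_ifs <;> simp
      have c1 : (D1 N ε1).map (C : S →+* MvPolynomial (Fin m) S) =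
          D1 N (C ε1) := by
        ext1 i j
        simp only [D1, Matrix.map_apply, Matrix.of_apply]
        split_ifs <;> simp
      have c2 : (D2 N z' ε2).map (C : S →+* MvPolynomial (Fin m) S) =
          D2 N (fun j => C (z' j)) (C ε2) := by
        ext1 i j
        simp only [D2, Matrix.map_apply, Matrix.of_apply]
        split_ifs <;> simp
      rw [c0, c1, c2]
      refine det_point hN _ _ _ ?_ ?_ _ _ _
      · rw [← C_mul, hε1, C_0]
      · rw [← C_mul, hε2, C_0]
    · intro k h0 h1 h2
      have : (genericMatrix K (N + 1) m k).map ψ = 0 := by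
        ext1 i j
        simp [genericMatrix, hX, hpt, h0, h1, h2]
      rw [this]
      ext1 i j
      simp
  set ψ' : Q →+* S := Ideal.Quotient.lift _ ψ hkill with hψ'
  set Ψ : Polynomial Q →+* S :=
    Polynomial.eval₂RingHom ψ' (algebraMap (Polynomial K) S Polynomial.X) with hΨ
  have hcomp : ∀ x, Ψ (φ x) = ψ x := by
    intro x
    rw [hΨ, hφ]
    simp only [RingHom.comp_apply, Polynomial.coe_eval₂RingHom, Polynomial.eval₂_C, hφ0, hψ']
    exact Ideal.Quotient.lift_mk _ _ _
  have hGΨ : ∀ k, (G k).map Ψ = (genericMatrix K (N + 1) m k).map ψ := by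
    intro k
    ext1 i j
    simp only [hG, Matrix.map_apply]
    exact hcomp _
  have hval := map_Fval Ψ z (G ⟨0, by omega⟩) (G ⟨1, by omega⟩) (G ⟨2, by omega⟩)
  rw [hzero, map_zero, hGΨ, hGΨ, hGΨ, m0, m1, m2] at hval
  have hzz : (fun j => Ψ (z j)) = z' := by
    funext j
    simp only [hΨ, hz, hz', Polynomial.coe_eval₂RingHom, Polynomial.eval₂_pow,
      Polynomial.eval₂_X, map_pow]
  rw [hzz] at hval
  have hα : ∀ i j : Fin (N + 1), i ≠ j →
      (-(Polynomial.X ^ (i : ℕ) : Polynomial K) + Polynomial.X ^ (j : ℕ)) ∈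
        nonZeroDivisors (Polynomial K) := by
    intro i j hij
    have hmonic : ∀ a b : ℕ, a < b →
        ((Polynomial.X ^ b : Polynomial K) - Polynomial.X ^ a).Monic := by
      intro a b hab
      refine Polynomial.monic_X_pow_sub ?_
      refine lt_of_le_of_lt (Polynomial.degree_X_pow_le a) ?_
      exact_mod_cast hab
    rcases lt_or_gt_of_ne (fun h => hij (Fin.ext h) : (i : ℕ) ≠ j) with h | h
    · have := (hmonic _ _ h).mem_nonZeroDivisors
      rwa [sub_eq_neg_add] at this
    · have h1 := (hmonic _ _ h).mem_nonZeroDivisors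
      rw [mem_nonZeroDivisors_iff_right] at h1 ⊢
      intro y hy
      apply h1
      have : y * (Polynomial.X ^ (i : ℕ) - Polynomial.X ^ (j : ℕ)) =
        - (y * (-(Polynomial.X ^ (i : ℕ) : Polynomial K) + Polynomial.X ^ (j : ℕ))) := by ring
      rw [this, hy, neg_zero]
  obtain ⟨c, hc, hE⟩ := det_colMat_eq (S := S) hN
    (fun j : Fin (N + 1) => (Polynomial.X ^ (j : ℕ) : Polynomial K)) hα ε2
  refine ⟨c, hc, ?_⟩
  unfold Fval at hval
  rw [adj_D0 hN] at hval
  rw [← hE]
  exact hval.symm

/-- **The scheme of singular tuples is not reduced**, over any nonzero commutative ring. -/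
theorem not_isReduced (K : Type u) [CommRing K] [Nontrivial K] {N m : ℕ} (hN : 1 ≤ N)
    (hm : 3 ≤ m) : ¬ IsReduced (CoordRing K (N + 1) m ⧸ coeffIdeal K (N + 1) m) := by
  intro hred
  obtain ⟨c, hc, h⟩ := infinitesimal K hN hm hred (e1 (Polynomial K)) (e2 (Polynomial K))
    e1_sq e2_sq
  exact smul_ne (nonZeroDivisors.ne_zero hc) h

end Pool.Agent.Y227.SG
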