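import Pool.Agent.Y227.SG.Gen
import Pool.Agent.Y227.SG.Groeb

/-!
# Pencils: the coefficient ideal of `det (t₀ X₀ + t₁ X₁)` is radical
-/

set_option autoImplicit false

namespace Pool.Agent.Y227.SG

open Matrix MvPolynomial

universe u

/-- the variable in column `i` -/
def vr {n : ℕ} (A : Finset (Fin n)) (s : Equiv.Perm (Fin n)) (i : Fin n) :
    Fin 2 × Fin n × Fin n := (if i ∈ A then 1 else 0, s i, i)

/-- the exponent of the monomial given by `A` and `s` -/
noncomputable def ex {n : ℕ} (A : Finset (Fin n)) (s : Equiv.Perm (Fin n)) :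
    (Fin 2 × Fin n × Fin n) →₀ ℕ := ∑ i, Finsupp.single (vr A s i) 1

/-- the exponent of `t` -/
noncomputable def td {n : ℕ} (A : Finset (Fin n)) : Fin 2 →₀ ℕ :=
  ∑ i, Finsupp.single (if i ∈ A then (1 : Fin 2) else 0) 1

/-- the coefficients -/
noncomputable def cf (K : Type u) [CommRing K] (n k : ℕ) : CoordRing K n 2 :=
  ∑ s : Equiv.Perm (Fin n), ∑ A ∈ Finset.univ.powerset,
    if A.card = k then monomial (ex A s) ((Equiv.Perm.sign s : ℤ) : K) else 0

theorem prod_X' {τ R ι : Type*} [CommRing R] (s : Finset ι) (v : ι → τ) :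
    ∏ i ∈ s, (X (v i) : MvPolynomial τ R) = monomial (∑ i ∈ s, Finsupp.single (v i) 1) 1 := by
  rw [monomial_sum_one]
  rfl

theorem bigDet_eq (K : Type u) [CommRing K] (n : ℕ) : bigDet K n 2 =
    ∑ s : Equiv.Perm (Fin n), ∑ A ∈ Finset.univ.powerset,
      monomial (td A) (monomial (ex A s) ((Equiv.Perm.sign s : ℤ) : K)) := by
  classical
  unfold bigDet
  rw [det_apply']
  refine Finset.sum_congr rfl fun s _ => ?_
  have h1 : ∀ i, (∑ k, (X k : MvPolynomial (Fin 2) (CoordRing K n 2)) •
      (genericMatrix K n 2 k).map (C : CoordRing K n 2 →+* MvPolynomial (Fin 2) (CoordRing K n 2)))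
        (s i) i =
      X 1 * C (X (1, s i, i)) + X 0 * C (X (0, s i, i)) := by
    intro i
    rw [Fin.sum_univ_two, Matrix.add_apply, Matrix.smul_apply, Matrix.smul_apply, Matrix.map_apply,
      Matrix.map_apply, smul_eq_mul, smul_eq_mul, add_comm]
    rfl
  rw [Finset.prod_congr rfl (fun i _ => h1 i), Finset.prod_add, Finset.mul_sum]
  refine Finset.sum_congr rfl fun A _ => ?_
  have h2 : (∏ i ∈ A, (X 1 * C (X (1, s i, i)) : MvPolynomial (Fin 2) (CoordRing K n 2))) *
      ∏ i ∈ Finset.univ \ A, (X 0 * C (X (0, s i, i))) =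
      ∏ i, (X (if i ∈ A then (1 : Fin 2) else 0) * C (X (vr A s i))) := by
    rw [← Finset.prod_sdiff (Finset.subset_univ A), mul_comm]
    congr 1
    · refine Finset.prod_congr rfl fun i hi => ?_
      rw [Finset.mem_sdiff] at hi
      simp [vr, hi.2]
    · refine Finset.prod_congr rfl fun i hi => ?_
      simp [vr, hi]
  rw [h2, Finset.prod_mul_distrib, prod_X', ← map_prod, prod_X']
  have h3 : (((Equiv.Perm.sign s : ℤ)) : MvPolynomial (Fin 2) (CoordRing K n 2)) =
      C (C ((Equiv.Perm.sign s : ℤ) : K)) := by simp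
  rw [h3, ← mul_assoc, mul_comm (C (C _)) _, mul_assoc, ← C_mul, C_mul_monomial, mul_one]
  unfold td ex
  rw [mul_comm, C_mul_monomial, mul_one]

theorem td_one {n : ℕ} (A : Finset (Fin n)) : td A 1 = A.card := by
  unfold td
  rw [Finsupp.finset_sum_apply]
  rw [Finset.card_eq_sum_ones, ← Finset.sum_filter_add_sum_filter_not Finset.univ (fun i => i ∈ A)]
  rw [Finset.sum_congr (g := fun _ => 1) rfl, Finset.sum_congr (g := fun _ => 0)
    (s₁ := Finset.univ.filter fun i => i ∉ A) rfl]
  · simp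
  · intro i hi
    simp only [Finset.mem_filter] at hi
    simp [hi.2]
  · intro i hi
    simp only [Finset.mem_filter] at hi
    simp [hi.2]

theorem td_zero {n : ℕ} (A : Finset (Fin n)) : td A 0 + td A 1 = n := by
  unfold td
  rw [Finsupp.finset_sum_apply, Finsupp.finset_sum_apply, ← Finset.sum_add_distrib]
  rw [Finset.sum_congr (g := fun _ => 1) rfl]
  · simp
  · intro i _
    by_cases hi : i ∈ A <;> simp [hi]

theorem td_eq_iff {n : ℕ} (A : Finset (Fin n)) (d : Fin 2 →₀ ℕ) (hd : d 0 + d 1 = n) :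
    td A = d ↔ A.card = d 1 := by
  constructor
  · intro h
    rw [← h, td_one]
  · intro h
    have h0 := td_zero A
    have h1 := td_one A
    ext i
    fin_cases i
    · change td A 0 = d 0
      omega
    · change td A 1 = d 1
      omega

theorem coeff_bigDet (K : Type u) [CommRing K] (n : ℕ) (d : Fin 2 →₀ ℕ) :
    coeff d (bigDet K n 2) = if d 0 + d 1 = n then cf K n (d 1) else 0 := by
  classical
  rw [bigDet_eq]
  simp only [coeff_sum, coeff_monomial]
  split_ifs with h
  · unfold cf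
    refine Finset.sum_congr rfl fun s _ => Finset.sum_congr rfl fun A _ => ?_
    simp only [td_eq_iff A d h]
  · refine Finset.sum_eq_zero fun s _ => Finset.sum_eq_zero fun A _ => ?_
    rw [if_neg]
    intro h2
    exact h (h2 ▸ td_zero A)

theorem coeffIdeal_two (K : Type u) [CommRing K] (n : ℕ) :
    coeffIdeal K n 2 = Ideal.span (Set.range fun k : Fin (n + 1) => cf K n k) := by
  unfold coeffIdeal
  apply le_antisymm
  · rw [Ideal.span_le]
    rintro _ ⟨d, rfl⟩
    show coeff d (bigDet K n 2) ∈ _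
    rw [coeff_bigDet]
    split_ifs with h
    · exact Ideal.subset_span ⟨⟨d 1, by omega⟩, rfl⟩
    · exact Ideal.zero_mem _
  · rw [Ideal.span_le]
    rintro _ ⟨k, rfl⟩
    refine Ideal.subset_span ⟨Finsupp.single 0 (n - k) + Finsupp.single 1 (k : ℕ), ?_⟩
    have hk := k.2
    show coeff _ (bigDet K n 2) = cf K n k
    rw [coeff_bigDet, if_pos]
    · simp
    · simp
      omega

/-- the reduced sum of the indices of a variable -/
def sp {n : ℕ} (v : Fin 2 × Fin n × Fin n) : ℤ :=
  (v.2.1 : ℕ) + (v.2.2 : ℕ) - (if v.1 = 1 then (n : ℤ) else 0)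

/-- the weights -/
def wt {n : ℕ} (v : Fin 2 × Fin n × Fin n) : ℕ := (4 * (n : ℤ) ^ 2 - sp v ^ 2).toNat

theorem wt_cast {n : ℕ} (v : Fin 2 × Fin n × Fin n) : (wt v : ℤ) = 4 * (n : ℤ) ^ 2 - sp v ^ 2 := by
  unfold wt
  rw [Int.toNat_of_nonneg]
  have h1 := v.2.1.2
  have h2 := v.2.2.2
  have h3 : -(2 * (n : ℤ)) ≤ sp v := by
    unfold sp
    split_ifs <;> omega
  have h4 : sp v ≤ 2 * (n : ℤ) := by
    unfold sp
    split_ifs <;> omega
  nlinarith

/-- the weight homomorphism -/
noncomputable def ph (n : ℕ) : ((Fin 2 × Fin n × Fin n) →₀ ℕ) →+ ℕ := Finsupp.weight wt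

theorem ph_ex {n : ℕ} (A : Finset (Fin n)) (s : Equiv.Perm (Fin n)) :
    (ph n (ex A s) : ℤ) = ∑ i, (4 * (n : ℤ) ^ 2 - sp (vr A s i) ^ 2) := by
  unfold ph ex
  rw [map_sum, Nat.cast_sum]
  refine Finset.sum_congr rfl fun i _ => ?_
  rw [Finsupp.weight_single, one_smul, wt_cast]

theorem sum_sp {n : ℕ} (A : Finset (Fin n)) (s : Equiv.Perm (Fin n)) :
    ∑ i, sp (vr A s i) = n * (n - 1) - n * A.card := by
  unfold sp vr
  rw [Finset.sum_sub_distrib, Finset.sum_add_distrib]
  have h1 : ∑ i, ((s i : ℕ) : ℤ) = ∑ i : Fin n, ((i : ℕ) : ℤ) :=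
    Equiv.sum_comp s (fun i => ((i : ℕ) : ℤ))
  have h2 : ∑ i : Fin n, (if (if i ∈ A then (1 : Fin 2) else 0) = 1 then (n : ℤ) else 0) =
      n * A.card := by
    have : ∀ i : Fin n, (if (if i ∈ A then (1 : Fin 2) else 0) = 1 then (n : ℤ) else 0) =
        if i ∈ A then (n : ℤ) else 0 := by
      intro i
      by_cases hi : i ∈ A <;> simp [hi]
    rw [Finset.sum_congr rfl (fun i _ => this i), Finset.sum_ite_mem, Finset.univ_inter,
      Finset.sum_const, nsmul_eq_mul, mul_comm]
  have h3 : 2 * ∑ i : Fin n, ((i : ℕ) : ℤ) = n * (n - 1) := by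
    rw [Fin.sum_univ_eq_sum_range (fun i => (i : ℤ)) n]
    have := Finset.sum_range_id_mul_two n
    rw [← Nat.cast_sum]
    rcases n with _ | n
    · simp
    · have h4 : ((∑ i ∈ Finset.range (n + 1), i : ℕ) : ℤ) * 2 = (n + 1) * n := by
        exact_mod_cast this
      push_cast at h4 ⊢
      linarith
  simp only at h1 ⊢
  rw [h1, h2]
  linarith

theorem sum_sq {n : ℕ} (A : Finset (Fin n)) (s : Equiv.Perm (Fin n)) {k : ℕ} (hA : A.card = k) :
    ∑ i, (sp (vr A s i) - ((n : ℤ) - 1 - k)) ^ 2 =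
      ∑ i, sp (vr A s i) ^ 2 - n * ((n : ℤ) - 1 - k) ^ 2 := by
  have h := sum_sp A s
  have h1 : ∀ i, (sp (vr A s i) - ((n : ℤ) - 1 - k)) ^ 2 =
      sp (vr A s i) ^ 2 - (2 * ((n : ℤ) - 1 - k)) * sp (vr A s i) + ((n : ℤ) - 1 - k) ^ 2 := by
    intro i; ring
  rw [Finset.sum_congr rfl (fun i _ => h1 i), Finset.sum_add_distrib, Finset.sum_sub_distrib,
    ← Finset.mul_sum, h, hA]
  simp only [Finset.sum_const, Finset.card_univ, Fintype.card_fin, nsmul_eq_mul]
  ring

/-- weight of a monomial -/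
theorem ph_ex' {n : ℕ} (A : Finset (Fin n)) (s : Equiv.Perm (Fin n)) {k : ℕ} (hA : A.card = k) :
    (ph n (ex A s) : ℤ) = n * (4 * (n : ℤ) ^ 2) - n * ((n : ℤ) - 1 - k) ^ 2 -
      ∑ i, (sp (vr A s i) - ((n : ℤ) - 1 - k)) ^ 2 := by
  rw [sum_sq A s hA, ph_ex, Finset.sum_sub_distrib]
  simp only [Finset.sum_const, Finset.card_univ, Fintype.card_fin, nsmul_eq_mul]
  ring

/-- the extremal permutation -/
def sk (n k : ℕ) (hk : k ≤ n) : Equiv.Perm (Fin n) :=
  Function.Involutive.toPerm (fun i : Fin n =>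
    if h : (i : ℕ) < n - k then (⟨n - 1 - k - i, by omega⟩ : Fin n)
    else ⟨2 * n - 1 - k - i, by omega⟩) (by
      intro i
      have hi := i.2
      by_cases h : (i : ℕ) < n - k
      · have h2 : n - 1 - k - (i : ℕ) < n - k := by omega
        simp only [h, h2, dif_pos]
        ext
        simp only
        omega
      · have h2 : ¬ (2 * n - 1 - k - (i : ℕ) < n - k) := by omega
        simp only [h, h2, dif_neg, not_false_iff]
        ext
        simp only
        omega)

/-- the extremal set -/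
def ak (n k : ℕ) : Finset (Fin n) := Finset.univ.filter fun i => n - k ≤ (i : ℕ)

theorem sp_extremal {n k : ℕ} (hk : k ≤ n) (i : Fin n) :
    sp (vr (ak n k) (sk n k hk) i) = (n : ℤ) - 1 - k := by
  have hi := i.2
  unfold sp vr sk ak
  simp only [Function.Involutive.coe_toPerm, Finset.mem_filter, Finset.mem_univ, true_and]
  by_cases h : (i : ℕ) < n - k
  · have h2 : ¬ (n - k ≤ (i : ℕ)) := by omega
    simp only [h, h2, dif_pos, if_false, zero_ne_one]
    omega
  · have h2 : n - k ≤ (i : ℕ) := by omega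
    simp only [h, h2, dif_neg, not_false_iff, if_true]
    omega

theorem card_ak {n k : ℕ} (hn : 0 < n) (hk : k ≤ n) : (ak n k).card = k := by
  have h := sum_sp (ak n k) (sk n k hk)
  rw [Finset.sum_congr rfl (fun i _ => sp_extremal hk i)] at h
  simp only [Finset.sum_const, Finset.card_univ, Fintype.card_fin, nsmul_eq_mul] at h
  have h2 : (n : ℤ) * ((ak n k).card - k) = 0 := by linarith
  have h3 : (n : ℤ) ≠ 0 := by omega
  rcases mul_eq_zero.1 h2 with h4 | h4
  · exact absurd h4 h3
  · omega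

theorem unique_extremal {n k : ℕ} (hk : k ≤ n) (A : Finset (Fin n)) (s : Equiv.Perm (Fin n))
    (h : ∀ i, sp (vr A s i) = (n : ℤ) - 1 - k) : A = ak n k ∧ s = sk n k hk := by
  have h1 : ∀ i, i ∈ A ↔ n - k ≤ (i : ℕ) := by
    intro i
    have hi := i.2
    have hsi := (s i).2
    have h2 := h i
    unfold sp vr at h2
    by_cases hA : i ∈ A
    · simp only [hA, if_true, true_iff] at h2 ⊢
      omega
    · simp only [hA, if_false, zero_ne_one, false_iff] at h2 ⊢
      omega
  constructor
  · ext i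
    rw [h1]
    simp [ak]
  · ext i
    have hi := i.2
    have h2 := h i
    have h3 := sp_extremal hk i
    have h4 : i ∈ A ↔ i ∈ ak n k := by rw [h1]; simp [ak]
    unfold sp vr at h2 h3
    simp only [h4] at h2
    simp only at h2 h3
    omega

theorem ph_lt {n k : ℕ} (hn : 0 < n) (hk : k ≤ n) (A : Finset (Fin n)) (s : Equiv.Perm (Fin n))
    (hA : A.card = k) (hne : ¬ (A = ak n k ∧ s = sk n k hk)) :
    ph n (ex A s) < ph n (ex (ak n k) (sk n k hk)) := by
  have h1 := ph_ex' A s hA
  have h2 := ph_ex' (ak n k) (sk n k hk) (card_ak hn hk)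
  have h3 : ∑ i, (sp (vr (ak n k) (sk n k hk) i) - ((n : ℤ) - 1 - k)) ^ 2 = 0 :=
    Finset.sum_eq_zero fun i _ => by rw [sp_extremal hk i]; ring
  have h4 : 0 < ∑ i, (sp (vr A s i) - ((n : ℤ) - 1 - k)) ^ 2 := by
    apply Finset.sum_pos' (fun i _ => sq_nonneg _)
    by_contra hcon
    push Not at hcon
    refine hne (unique_extremal hk A s fun i => ?_)
    have h5 := hcon i (Finset.mem_univ _)
    have h6 := sq_nonneg (sp (vr A s i) - ((n : ℤ) - 1 - k))
    have h7 : (sp (vr A s i) - ((n : ℤ) - 1 - k)) ^ 2 = 0 := le_antisymm h5 h6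
    have h8 := pow_eq_zero_iff (two_ne_zero) |>.1 h7
    linarith
  rw [h3] at h2
  have : (ph n (ex A s) : ℤ) < (ph n (ex (ak n k) (sk n k hk)) : ℤ) := by rw [h1, h2]; linarith
  exact_mod_cast this

theorem ex_apply {n : ℕ} (A : Finset (Fin n)) (s : Equiv.Perm (Fin n))
    (v : Fin 2 × Fin n × Fin n) : ex A s v = if vr A s v.2.2 = v then 1 else 0 := by
  classical
  unfold ex
  rw [Finsupp.finset_sum_apply, Finset.sum_eq_single v.2.2]
  · rw [Finsupp.single_apply]
  · intro i _ hi
    rw [Finsupp.single_apply, if_neg]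
    intro h
    apply hi
    rw [← h]
    rfl
  · intro h
    exact absurd (Finset.mem_univ _) h

open scoped MonomialOrder in
theorem degree_cf (K : Type u) [CommRing K] [Nontrivial K] {n : ℕ} (hn : 0 < n)
    (mo : MonomialOrder (Fin 2 × Fin n × Fin n))
    (hmo : ∀ a b, ph n a < ph n b → mo.toSyn a < mo.toSyn b) {k : ℕ} (hk : k ≤ n) :
    mo.degree (cf K n k) = ex (ak n k) (sk n k hk) ∧ IsUnit (mo.leadingCoeff (cf K n k)) := by
  classical
  have hcoeff : coeff (ex (ak n k) (sk n k hk)) (cf K n k) =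
      ((Equiv.Perm.sign (sk n k hk) : ℤ) : K) := by
    unfold cf
    rw [coeff_sum, Finset.sum_eq_single (sk n k hk)]
    · rw [coeff_sum, Finset.sum_eq_single (ak n k)]
      · rw [if_pos (card_ak hn hk), coeff_monomial, if_pos rfl]
      · intro A _ hA
        split_ifs with h
        · rw [coeff_monomial, if_neg]
          intro h2
          have := ph_lt hn hk A (sk n k hk) h (fun h3 => hA h3.1)
          rw [h2] at this
          exact lt_irrefl _ this
        · rw [coeff_zero]
      · intro h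
        exact absurd (Finset.mem_powerset.2 (Finset.subset_univ _)) h
    · intro s _ hs
      rw [coeff_sum]
      refine Finset.sum_eq_zero fun A _ => ?_
      split_ifs with h
      · rw [coeff_monomial, if_neg]
        intro h2
        have := ph_lt hn hk A s h (fun h3 => hs h3.2)
        rw [h2] at this
        exact lt_irrefl _ this
      · rw [coeff_zero]
    · intro h
      exact absurd (Finset.mem_univ _) h
  have hunit : IsUnit (((Equiv.Perm.sign (sk n k hk) : ℤ) : K)) := by
    rcases Int.units_eq_one_or (Equiv.Perm.sign (sk n k hk)) with h | h <;> rw [h] <;> simp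
  have hdeg : mo.degree (cf K n k) = ex (ak n k) (sk n k hk) := by
    apply mo.toSyn.injective
    apply le_antisymm
    · rw [MonomialOrder.degree_le_iff]
      intro d hd
      rw [MvPolynomial.mem_support_iff] at hd
      unfold cf at hd
      rw [coeff_sum] at hd
      obtain ⟨s, -, hs⟩ := Finset.exists_ne_zero_of_sum_ne_zero hd
      rw [coeff_sum] at hs
      obtain ⟨A, -, hA⟩ := Finset.exists_ne_zero_of_sum_ne_zero hs
      split_ifs at hA with h
      · rw [coeff_monomial] at hA
        split_ifs at hA with h2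
        · rw [← h2]
          by_cases h3 : A = ak n k ∧ s = sk n k hk
          · rw [h3.1, h3.2]
          · exact (hmo _ _ (ph_lt hn hk A s h h3)).le
        · exact absurd rfl hA
      · rw [coeff_zero] at hA
        exact absurd rfl hA
    · apply MonomialOrder.le_degree
      rw [MvPolynomial.mem_support_iff, hcoeff]
      exact hunit.ne_zero
  refine ⟨hdeg, ?_⟩
  rw [MonomialOrder.leadingCoeff, hdeg, hcoeff]
  exact hunit

theorem pencil_isRadical (K : Type u) [CommRing K] [Nontrivial K] [IsReduced K] {n : ℕ}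
    (hn : 0 < n) : (coeffIdeal K n 2).IsRadical := by
  obtain ⟨mo, hmo⟩ := exists_order (ph n)
  rw [coeffIdeal_two]
  have hd := fun k : Fin (n + 1) => degree_cf K hn mo hmo (Nat.lt_succ_iff.1 k.2)
  refine span_isRadical mo (fun k : Fin (n + 1) => cf K n k) (fun k => (hd k).2) ?_ ?_
  · intro k l hkl v
    rw [(hd k).1, (hd l).1, ex_apply, ex_apply]
    by_contra hcon
    push Not at hcon
    obtain ⟨h1, h2⟩ := hcon
    have h3 : vr (ak n k) (sk n k (Nat.lt_succ_iff.1 k.2)) v.2.2 = v := by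
      by_contra h
      exact h1 (if_neg h)
    have h4 : vr (ak n l) (sk n l (Nat.lt_succ_iff.1 l.2)) v.2.2 = v := by
      by_contra h
      exact h2 (if_neg h)
    have h5 := sp_extremal (Nat.lt_succ_iff.1 k.2) v.2.2
    have h6 := sp_extremal (Nat.lt_succ_iff.1 l.2) v.2.2
    rw [h3] at h5
    rw [h4, h5] at h6
    exact hkl (Fin.ext (by omega))
  · intro k v
    rw [(hd k).1, ex_apply]
    split_ifs <;> omega

end Pool.Agent.Y227.SG
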