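import Mathlib

/-!
# Singular tuples of matrices over arbitrary commutative rings: the polynomial and the point

The proofs follow the complex case `Pool.Agent.H578R3.SingNeg`, `SingPoint`; the integral nodes are
replaced by arbitrary elements of the ring.
-/

set_option autoImplicit false

namespace Pool.Agent.Y227.SG

open Matrix

/-- The matrix whose columns are the last columns of the adjugates of `X₂ - z_j X₀`. -/
def colMat {S : Type*} [CommRing S] {N : ℕ} (z : Fin (N + 1) → S)
    (X0 X2 : Matrix (Fin (N + 1)) (Fin (N + 1)) S) :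
    Matrix (Fin (N + 1)) (Fin (N + 1)) S :=
  Matrix.of fun i j => adjugate ((-z j) • X0 + X2) i (Fin.last N)

/-- The value of the explicit polynomial. -/
def Fval {S : Type*} [CommRing S] {N : ℕ} (z : Fin (N + 1) → S)
    (X0 X1 X2 : Matrix (Fin (N + 1)) (Fin (N + 1)) S) : S :=
  (adjugate X0 * X1) (Fin.last N) 0 * (colMat z X0 X2).det

theorem map_colMat {S T : Type*} [CommRing S] [CommRing T] (f : S →+* T) {N : ℕ}
    (z : Fin (N + 1) → S) (X0 X2 : Matrix (Fin (N + 1)) (Fin (N + 1)) S) :
    (colMat z X0 X2).map f = colMat (fun j => f (z j)) (X0.map f) (X2.map f) := by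
  ext i j
  simp only [colMat, Matrix.map_apply, Matrix.of_apply]
  have h : ((-(f (z j)) : T) • X0.map f + X2.map f) = ((-z j) • X0 + X2).map f := by
    ext a b
    simp
  rw [h]
  have := congrFun (congrFun (RingHom.map_adjugate f ((-z j) • X0 + X2)) i) (Fin.last N)
  simpa [RingHom.mapMatrix_apply] using this

theorem map_Fval {S T : Type*} [CommRing S] [CommRing T] (f : S →+* T) {N : ℕ}
    (z : Fin (N + 1) → S) (X0 X1 X2 : Matrix (Fin (N + 1)) (Fin (N + 1)) S) :
    f (Fval z X0 X1 X2) = Fval (fun j => f (z j)) (X0.map f) (X1.map f) (X2.map f) := by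
  unfold Fval
  rw [map_mul, RingHom.map_det, RingHom.mapMatrix_apply, map_colMat]
  congr 1
  have h1 := RingHom.map_adjugate f X0
  rw [RingHom.mapMatrix_apply, RingHom.mapMatrix_apply] at h1
  rw [← h1, ← Matrix.map_mul, Matrix.map_apply]

/-- Key identity: on singular triples the row `(adj X₀ Y)_last` is killed by the determinant of the
matrix of cofactor columns. -/
theorem row_mul_det {S : Type*} [CommRing S] {N : ℕ} (z : Fin (N + 1) → S)
    (X0 Y : Matrix (Fin (N + 1)) (Fin (N + 1)) S)
    (h0 : X0.det = 0) (h : ∀ j : Fin (N + 1), ((-z j) • X0 + Y).det = 0) (i : Fin (N + 1)) :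
    (adjugate X0 * Y) (Fin.last N) i * (colMat z X0 Y).det = 0 := by
  have h1 : (adjugate X0 * Y) (Fin.last N) ᵥ* colMat z X0 Y = 0 := by
    ext j
    have h2 : ((adjugate X0 * Y) (Fin.last N) ᵥ* colMat z X0 Y) j =
        ((adjugate X0 * Y) * adjugate ((-z j) • X0 + Y)) (Fin.last N) (Fin.last N) := by
      simp only [Matrix.vecMul, dotProduct, Matrix.mul_apply, colMat, Matrix.of_apply]
    rw [h2]
    have h3 : (adjugate X0 * Y) * adjugate ((-z j) • X0 + Y) = 0 := by
      have h4 : adjugate X0 * Y = adjugate X0 * ((-z j) • X0 + Y) := by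
        rw [Matrix.mul_add, Matrix.mul_smul, Matrix.adjugate_mul, h0, zero_smul, smul_zero,
          zero_add]
      rw [h4, Matrix.mul_assoc, Matrix.mul_adjugate, h j, zero_smul, Matrix.mul_zero]
    rw [h3]
    rfl
  have h5 : (adjugate X0 * Y) (Fin.last N) ᵥ* (colMat z X0 Y * adjugate (colMat z X0 Y)) = 0 := by
    rw [← Matrix.vecMul_vecMul, h1, Matrix.zero_vecMul]
  rw [Matrix.mul_adjugate, Matrix.vecMul_smul, Matrix.vecMul_one] at h5
  have h6 := congrFun h5 i
  simp only [Pi.smul_apply, smul_eq_mul, Pi.zero_apply] at h6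
  rw [mul_comm]
  exact h6

open Polynomial in
/-- on triples which are singular in the scheme-theoretic sense the square of the polynomial
vanishes -/
theorem Fval_sq_eq_zero {Q : Type*} [CommRing Q] {N : ℕ} (z : Fin (N + 1) → Q)
    (X0 X1 X2 : Matrix (Fin (N + 1)) (Fin (N + 1)) Q)
    (h : ∀ a b c : Q[X], (a • X0.map C + b • X1.map C + c • X2.map C).det = 0) :
    Fval z X0 X1 X2 ^ 2 = 0 := by
  set P0 : Matrix (Fin (N + 1)) (Fin (N + 1)) Q[X] := X0.map (Polynomial.C : Q →+* Q[X]) with hP0
  set PY : Matrix (Fin (N + 1)) (Fin (N + 1)) Q[X] :=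
    (Polynomial.X : Q[X]) • X1.map (Polynomial.C : Q →+* Q[X]) +
      X2.map (Polynomial.C : Q →+* Q[X]) with hPY
  have hd0 : P0.det = 0 := by
    have h1 := h 1 0 0
    simpa only [one_smul, zero_smul, add_zero] using h1
  have hdY : ∀ j : Fin (N + 1), ((-(C (z j)) : Q[X]) • P0 + PY).det = 0 := by
    intro j
    have h1 := h (-(C (z j))) X 1
    rw [one_smul, add_assoc] at h1
    exact h1
  have key := row_mul_det (fun j => C (z j)) P0 PY hd0 hdY 0
  set u1 := (adjugate X0 * X1) (Fin.last N) 0 with hu1
  set u2 := (adjugate X0 * X2) (Fin.last N) 0 with hu2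
  set D := (colMat (fun j => C (z j)) P0 PY).det with hD
  have hr : (adjugate P0 * PY) (Fin.last N) 0 = C u1 * X + C u2 := by
    have h5 := RingHom.map_adjugate (C : Q →+* Q[X]) X0
    rw [RingHom.mapMatrix_apply, RingHom.mapMatrix_apply] at h5
    rw [hPY, Matrix.mul_add, Matrix.mul_smul, hP0, ← h5, ← Matrix.map_mul, ← Matrix.map_mul]
    simp only [Matrix.add_apply, Matrix.smul_apply, Matrix.map_apply, smul_eq_mul, hu1, hu2]
    ring
  have hD0 : D.coeff 0 = (colMat z X0 X2).det := by
    rw [Polynomial.coeff_zero_eq_eval_zero]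
    have h1 := RingHom.map_det (evalRingHom (0 : Q)) (colMat (fun j => C (z j)) P0 PY)
    rw [RingHom.mapMatrix_apply, map_colMat] at h1
    have e0 : P0.map (evalRingHom (0 : Q)) = X0 := by
      ext i j; simp [hP0]
    have eY : PY.map (evalRingHom (0 : Q)) = X2 := by
      ext i j
      simp only [hPY, Matrix.map_apply, Matrix.add_apply, Matrix.smul_apply, smul_eq_mul,
        coe_evalRingHom, eval_add, eval_mul, eval_X, eval_C, zero_mul, zero_add]
    rw [e0, eY] at h1
    simpa using h1
  rw [hr] at key
  have k0 : u2 * D.coeff 0 = 0 := by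
    have := congrArg (fun p => Polynomial.coeff p 0) key
    simpa [Polynomial.mul_coeff_zero] using this
  have k1 : u1 * D.coeff 0 + u2 * D.coeff 1 = 0 := by
    have := congrArg (fun p => Polynomial.coeff p 1) key
    rw [add_mul] at this
    simp only [coeff_add, coeff_zero] at this
    rw [mul_assoc, coeff_C_mul, coeff_C_mul, Polynomial.coeff_X_mul] at this
    exact this
  have hF : Fval z X0 X1 X2 = u1 * D.coeff 0 := by rw [hD0]; rfl
  rw [hF]
  linear_combination (u1 * D.coeff 0) * k1 - (u1 * D.coeff 1) * k0

section Point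

variable {S : Type*} [CommRing S] {N : ℕ}

/-- First matrix of the infinitesimal point. -/
def D0 (S : Type*) [CommRing S] (N : ℕ) : Matrix (Fin (N + 1)) (Fin (N + 1)) S :=
  Matrix.of fun i j => if i = j ∧ i ≠ Fin.last N then 1 else 0

/-- Second matrix of the infinitesimal point. -/
def D1 (N : ℕ) (e : S) : Matrix (Fin (N + 1)) (Fin (N + 1)) S :=
  Matrix.of fun i j => if i = 0 ∧ j = Fin.last N then e
    else if i = Fin.last N ∧ j = 0 then e else 0

/-- Third matrix of the infinitesimal point. -/
def D2 (N : ℕ) (z : Fin (N + 1) → S) (e : S) : Matrix (Fin (N + 1)) (Fin (N + 1)) S :=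
  Matrix.of fun i j =>
    if i = Fin.last N then (if j = 0 then e else 0)
    else if j = Fin.last N then (if i = 0 then -e else 1)
    else if i = j then z i else 0

theorem det_point (hN : 1 ≤ N) (z : Fin (N + 1) → S) (e1 e2 : S) (h1 : e1 * e1 = 0)
    (h2 : e2 * e2 = 0) (a b c : S) :
    (a • D0 S N + b • D1 N e1 + c • D2 N z e2).det = 0 := by
  have hlast : (0 : Fin (N + 1)) ≠ Fin.last N := by
    intro h
    have := congrArg Fin.val h
    simp at this
    omega
  set M := a • D0 S N + b • D1 N e1 + c • D2 N z e2 with hM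
  have e : M = M.updateRow (Fin.last N) ((b * e1 + c * e2) • (Pi.single 0 1)) := by
    ext i j
    by_cases hi : i = Fin.last N
    · subst hi
      rw [Matrix.updateRow_self]
      by_cases hj : j = 0
      · subst hj
        simp [hM, D0, D1, D2, hlast, hlast.symm]
      · simp [hM, D0, D1, D2, hlast, hlast.symm, hj]
    · rw [Matrix.updateRow_ne hi]
  rw [e, Matrix.det_updateRow_smul]
  set M' := M.updateRow (Fin.last N) (Pi.single 0 1) with hM'
  have e' : M' = M'.updateRow 0 ((a + c * z 0) • Pi.single 0 1 +
      (b * e1 - c * e2) • Pi.single (Fin.last N) 1) := by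
    ext i j
    by_cases hi : i = 0
    · subst hi
      rw [Matrix.updateRow_self, hM', Matrix.updateRow_ne hlast]
      by_cases hj : j = 0
      · subst hj
        simp [hM, D0, D1, D2, hlast, hlast.symm]
      · by_cases hj' : j = Fin.last N
        · subst hj'
          simp [hM, D0, D1, D2, hlast, hlast.symm]
          ring
        · have hj0 : (0 : Fin (N+1)) ≠ j := fun h => hj h.symm
          simp [hM, D0, D1, D2, hlast, hlast.symm, hj, hj', hj0]
    · rw [Matrix.updateRow_ne hi]
  rw [e', Matrix.det_updateRow_add, Matrix.det_updateRow_smul, Matrix.det_updateRow_smul]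
  have h3 : (M'.updateRow 0 (Pi.single 0 1)).det = 0 := by
    apply Matrix.det_zero_of_row_eq hlast
    rw [Matrix.updateRow_self, Matrix.updateRow_ne hlast.symm, hM', Matrix.updateRow_self]
  rw [h3, mul_zero, zero_add, ← mul_assoc]
  have h4 : (b * e1 + c * e2) * (b * e1 - c * e2) = 0 := by
    linear_combination (b * b) * h1 - (c * c) * h2
  rw [h4, zero_mul]

/-- The entry in the last column (row `l`, `l` not last) of `D2`. -/
def bval (e : S) (l : Fin (N + 1)) : S := if l = 0 then -e else 1

theorem row_of_ne (z : Fin (N + 1) → S) (e : S) (y : S) (l : Fin (N + 1)) (hl : l ≠ Fin.last N) :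
    (y • D0 S N + D2 N z e) l =
      (y + z l) • Pi.single l 1 + bval e l • Pi.single (Fin.last N) 1 := by
  ext j
  have hB : (D2 N z e) l (Fin.last N) = bval e l := by
    simp [D2, hl, bval]
  by_cases hj : j = l
  · subst hj
    have h1 : (D2 N z e) j j = z j := by simp [D2, hl]
    have h2 : (D0 S N) j j = 1 := by simp [D0, hl]
    rw [Matrix.add_apply, Matrix.smul_apply, h1, h2]
    simp [hl]
  · by_cases hj' : j = Fin.last N
    · subst hj'
      have h2 : (D0 S N) l (Fin.last N) = 0 := by simp [D0, hl]
      rw [Matrix.add_apply, Matrix.smul_apply, hB, h2]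
      simp [hj]
    · have h' : ¬ (l = j) := fun h => hj h.symm
      have h1 : (D2 N z e) l j = 0 := by simp [D2, hl, hj', h']
      have h2 : (D0 S N) l j = 0 := by simp [D0, h']
      rw [Matrix.add_apply, Matrix.smul_apply, h1, h2]
      simp [hj, hj']

theorem row_node (z : Fin (N + 1) → S) (e : S) {j : Fin (N + 1)} (hj : j ≠ Fin.last N) :
    ((-z j) • D0 S N + D2 N z e) j = bval e j • Pi.single (Fin.last N) 1 := by
  rw [row_of_ne z e _ j hj]
  simp

theorem colMat_apply_ne (z : Fin (N + 1) → S) (e : S) {i j : Fin (N + 1)} (hj : j ≠ Fin.last N)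
    (hij : i ≠ j) : colMat z (D0 S N) (D2 N z e) i j = 0 := by
  unfold colMat
  rw [Matrix.of_apply, Matrix.adjugate_apply]
  set Y := ((-z j) • D0 S N + D2 N z e) with hY
  set Z := Y.updateRow (Fin.last N) (Pi.single i 1) with hZ
  have hZj : Z j = bval e j • Pi.single (Fin.last N) 1 := by
    rw [hZ, Matrix.updateRow_ne hj, hY, row_node z e hj]
  have hZl : Z (Fin.last N) = Pi.single i 1 := by rw [hZ, Matrix.updateRow_self]
  have e1 : Z = Z.updateRow j (bval e j • Pi.single (Fin.last N) 1) := by
    rw [← hZj, Matrix.updateRow_eq_self]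
  by_cases hi : i = Fin.last N
  · rw [e1, Matrix.det_updateRow_smul]
    have : (Z.updateRow j (Pi.single (Fin.last N) 1)).det = 0 := by
      apply Matrix.det_zero_of_row_eq hj
      rw [Matrix.updateRow_self, Matrix.updateRow_ne hj.symm, hZl, hi]
    rw [this, mul_zero]
  · have hZi : Z i = (-z j + z i) • Z (Fin.last N) +
        bval e i • Pi.single (Fin.last N) 1 := by
      rw [hZl, hZ, Matrix.updateRow_ne hi, hY, row_of_ne z e _ i hi]
    have e2 : Z = Z.updateRow i ((-z j + z i) • Z (Fin.last N) +
        bval e i • Pi.single (Fin.last N) 1) := by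
      rw [← hZi, Matrix.updateRow_eq_self]
    rw [e2, Matrix.det_updateRow_add, Matrix.det_updateRow_smul, Matrix.det_updateRow_smul]
    have h1 : (Z.updateRow i (Z (Fin.last N))).det = 0 := by
      apply Matrix.det_zero_of_row_eq hi
      rw [Matrix.updateRow_self, Matrix.updateRow_ne (fun h => hi h.symm)]
    have h2 : (Z.updateRow i (Pi.single (Fin.last N) 1)).det = 0 := by
      have e3 : Z.updateRow i (Pi.single (Fin.last N) 1) =
          (Z.updateRow i (Pi.single (Fin.last N) 1)).updateRow j
            (bval e j • Pi.single (Fin.last N) 1) := by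
        rw [← hZj]
        have : Z j = (Z.updateRow i (Pi.single (Fin.last N) 1)) j := by
          rw [Matrix.updateRow_ne (fun h => hij h.symm)]
        rw [this, Matrix.updateRow_eq_self]
      rw [e3, Matrix.det_updateRow_smul]
      have : ((Z.updateRow i (Pi.single (Fin.last N) 1)).updateRow j
          (Pi.single (Fin.last N) 1)).det = 0 := by
        apply Matrix.det_zero_of_row_eq hij
        rw [Matrix.updateRow_self, Matrix.updateRow_ne hij, Matrix.updateRow_self]
      rw [this, mul_zero]
    rw [h1, h2, mul_zero, mul_zero, add_zero]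

/-- An upper triangular determinant: rows `d_l e_l + b_l e_last`, last row `e_last`. -/
theorem det_tri (d b : Fin (N + 1) → S) (T : Matrix (Fin (N + 1)) (Fin (N + 1)) S)
    (hT : ∀ l, l ≠ Fin.last N → T l = d l • Pi.single l 1 + b l • Pi.single (Fin.last N) 1)
    (hl : T (Fin.last N) = Pi.single (Fin.last N) 1) (hd : d (Fin.last N) = 1) :
    T.det = ∏ l, d l := by
  rw [Matrix.det_of_isUpperTriangular]
  · apply Finset.prod_congr rfl
    intro l _
    by_cases h : l = Fin.last N
    · subst h
      rw [hl, hd]; simp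
    · rw [hT l h]
      simp [h]
  · intro i j hij
    simp only [id] at hij
    by_cases h : i = Fin.last N
    · subst h
      rw [hl]
      simp [hij.ne]
    · rw [hT i h]
      have h1 : j ≠ Fin.last N := by
        intro h'
        subst h'
        exact absurd hij (not_lt.2 (Fin.le_last i))
      simp [hij.ne, h1]

theorem colMat_apply_self (z : Fin (N + 1) → S) (e : S) {j : Fin (N + 1)} (hj : j ≠ Fin.last N) :
    colMat z (D0 S N) (D2 N z e) j j = bval e j *
      (-∏ l : Fin (N + 1), (if l = j ∨ l = Fin.last N then (1 : S) else (-z j + z l))) := by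
  unfold colMat
  rw [Matrix.of_apply, Matrix.adjugate_apply]
  set Y := ((-z j) • D0 S N + D2 N z e) with hY
  set Z := Y.updateRow (Fin.last N) (Pi.single j 1) with hZ
  have hZj : Z j = bval e j • Pi.single (Fin.last N) 1 := by
    rw [hZ, Matrix.updateRow_ne hj, hY, row_node z e hj]
  have hZl : Z (Fin.last N) = Pi.single j 1 := by rw [hZ, Matrix.updateRow_self]
  have e1 : Z = Z.updateRow j (bval e j • Pi.single (Fin.last N) 1) := by
    rw [← hZj, Matrix.updateRow_eq_self]
  rw [e1, Matrix.det_updateRow_smul]
  congr 1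
  set Q := Z.updateRow j (Pi.single (Fin.last N) 1) with hQ
  have h1 := Matrix.det_permute (Equiv.swap j (Fin.last N)) Q
  rw [Equiv.Perm.sign_swap hj] at h1
  have h2 : (Q.submatrix (Equiv.swap j (Fin.last N)) id).det =
      ∏ l : Fin (N + 1), (if l = j ∨ l = Fin.last N then (1 : S) else (-z j + z l)) := by
    apply det_tri (d := fun l => if l = j ∨ l = Fin.last N then (1 : S) else (-z j + z l))
      (b := fun l => if l = j then 0 else bval e l)
    · intro l hl
      by_cases hlj : l = j
      · subst hlj
        have : (Q.submatrix (Equiv.swap l (Fin.last N)) id) l = Q (Fin.last N) := by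
          ext x
          simp [Matrix.submatrix_apply]
        rw [this, hQ, Matrix.updateRow_ne hj.symm, hZl]
        simp
      · have : (Q.submatrix (Equiv.swap j (Fin.last N)) id) l = Q l := by
          ext x
          rw [Matrix.submatrix_apply, Equiv.swap_apply_of_ne_of_ne hlj hl]
          rfl
        rw [this, hQ, Matrix.updateRow_ne hlj, hZ, Matrix.updateRow_ne hl, hY,
          row_of_ne z e _ l hl]
        simp [hlj, hl]
    · have : (Q.submatrix (Equiv.swap j (Fin.last N)) id) (Fin.last N) = Q j := by
        ext x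
        simp [Matrix.submatrix_apply]
      rw [this, hQ, Matrix.updateRow_self]
    · simp
  rw [h2] at h1
  rw [h1]
  simp

theorem colMat_last (z : Fin (N + 1) → S) (e : S) :
    colMat z (D0 S N) (D2 N z e) (Fin.last N) (Fin.last N) =
      ∏ l : Fin (N + 1), (if l = Fin.last N then (1 : S) else (-z (Fin.last N) + z l)) := by
  unfold colMat
  rw [Matrix.of_apply, Matrix.adjugate_apply]
  apply det_tri (d := fun l => if l = Fin.last N then (1 : S) else (-z (Fin.last N) + z l))
    (b := fun l => bval e l)
  · intro l hl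
    rw [Matrix.updateRow_ne hl, row_of_ne z e _ l hl]
    simp [hl]
  · rw [Matrix.updateRow_self]
  · simp

theorem det_colMat (z : Fin (N + 1) → S) (e : S) : (colMat z (D0 S N) (D2 N z e)).det =
    ∏ j, colMat z (D0 S N) (D2 N z e) j j := by
  apply Matrix.det_of_isUpperTriangular
  intro i j hij
  simp only [id] at hij
  apply colMat_apply_ne z e _ hij.ne'
  intro h
  subst h
  exact absurd hij (not_lt.2 (Fin.le_last i))

theorem adj_D0 (hN : 1 ≤ N) (e : S) : (adjugate (D0 S N) * D1 N e) (Fin.last N) 0 = e := by
  have hlast : (0 : Fin (N + 1)) ≠ Fin.last N := by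
    intro h
    have := congrArg Fin.val h
    simp at this
    omega
  have h4 : adjugate (D0 S N) (Fin.last N) = Pi.single (Fin.last N) 1 := by
    ext j
    rw [Matrix.adjugate_apply]
    by_cases hj : j = Fin.last N
    · subst hj
      rw [Pi.single_eq_same]
      rw [det_tri (d := fun _ => 1) (b := fun _ => 0)]
      · simp
      · intro l hl
        rw [Matrix.updateRow_ne hl]
        ext x
        by_cases hx : x = l
        · subst hx
          simp [D0, hl]
        · have : ¬ (l = x) := fun h => hx h.symm
          simp [D0, hx, this]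
      · rw [Matrix.updateRow_self]
      · rfl
    · rw [Pi.single_eq_of_ne hj]
      apply Matrix.det_eq_zero_of_row_eq_zero (Fin.last N)
      intro x
      rw [Matrix.updateRow_ne (fun h => hj h.symm)]
      simp [D0]
  rw [Matrix.mul_apply, Finset.sum_eq_single (Fin.last N)]
  · rw [h4]
    simp [D1, hlast]
  · intro b _ hb
    rw [h4, Pi.single_eq_of_ne hb, zero_mul]
  · intro h
    exact absurd (Finset.mem_univ _) h

end Point

end Pool.Agent.Y227.SG
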